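import Pool.Agent.W181.WH.Stm

/-!
# Project WH (MP_2f3d29_nt, helper181): task WH-COMM
-/

set_option autoImplicit false
set_option linter.unusedSimpArgs false

namespace Pool.Agent.W782.WH

open Pool.Agent.W181.WH

section Chain

variable {B : Type} [Ring B] [Algebra ℂ B] {p T : ℕ → B}

lemma ach_succ (z : ℂ) (l : ℕ) : Ach p T z (l + 2) =
    (algebraMap ℂ B z - p (l + 2)) * Ach p T z (l + 1) + T (l + 1) * Ach p T z l := rfl

lemma p_ach (h : TodaRel p T) (z : ℂ) (l : ℕ) : (∀ k, l < k → Commute (p k) (Ach p T z l)) ∧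
    (∀ k, l + 1 < k → Commute (p k) (Ach p T z (l + 1))) := by
  induction l with
  | zero =>
    refine ⟨fun k _ => Commute.one_right _, fun k hk => ?_⟩
    exact (Algebra.commute_algebraMap_right z (p k)).sub_right (h.1 _ _)
  | succ l ih =>
    refine ⟨ih.2, fun k hk => ?_⟩
    rw [ach_succ]
    apply Commute.add_right
    · apply Commute.mul_right
      · exact (Algebra.commute_algebraMap_right z (p k)).sub_right (h.1 _ _)
      · exact ih.2 k (by omega)
    · apply Commute.mul_right
      · exact h.2.2.1 _ _ (by omega) (by omega)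
      · exact ih.1 k (by omega)

lemma T_ach (h : TodaRel p T) (z : ℂ) (l : ℕ) : (∀ k, l < k → Commute (T k) (Ach p T z l)) ∧
    (∀ k, l + 1 < k → Commute (T k) (Ach p T z (l + 1))) := by
  induction l with
  | zero =>
    refine ⟨fun k _ => Commute.one_right _, fun k hk => ?_⟩
    exact (Algebra.commute_algebraMap_right z (T k)).sub_right
      (h.2.2.1 _ _ (by omega) (by omega)).symm
  | succ l ih =>
    refine ⟨ih.2, fun k hk => ?_⟩
    rw [ach_succ]
    apply Commute.add_right
    · apply Commute.mul_right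
      · exact (Algebra.commute_algebraMap_right z (T k)).sub_right
          (h.2.2.1 _ _ (by omega) (by omega)).symm
      · exact ih.2 k (by omega)
    · apply Commute.mul_right
      · exact h.2.1 _ _
      · exact ih.1 k (by omega)

/-- `T_(l+1) A_(l+1) = (A_(l+1) - A_l) T_(l+1)` -/
lemma T_ach' (h : TodaRel p T) (z : ℂ) (l : ℕ) :
    T (l + 1) * Ach p T z (l + 1) = (Ach p T z (l + 1) - Ach p T z l) * T (l + 1) := by
  have hz := Algebra.commutes z (T (l + 1))
  have hp := h.2.2.2.1 (l + 1)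
  cases l with
  | zero =>
    show T 1 * (algebraMap ℂ B z - p 1) = ((algebraMap ℂ B z - p 1) - 1) * T 1
    simp only [zero_add] at hz hp
    rw [mul_sub, hp, ← hz]
    noncomm_ring
  | succ l =>
    have h1 : Commute (T (l + 1 + 1)) (Ach p T z (l + 1)) := (T_ach h z (l + 1)).1 _ (by omega)
    have h2 : Commute (T (l + 1 + 1)) (T (l + 1)) := h.2.1 _ _
    have h3 : Commute (T (l + 1 + 1)) (Ach p T z l) := (T_ach h z l).1 _ (by omega)
    show T (l + 2) * Ach p T z (l + 2) = (Ach p T z (l + 2) - Ach p T z (l + 1)) * T (l + 2)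
    rw [ach_succ]
    have e1 : T (l + 2) * ((algebraMap ℂ B z - p (l + 2)) * Ach p T z (l + 1)) =
        (algebraMap ℂ B z - (p (l + 2) + 1)) * Ach p T z (l + 1) * T (l + 2) := by
      rw [← mul_assoc, mul_sub, ← hz, hp, ← sub_mul, mul_assoc, h1.eq, ← mul_assoc]
    have e2 : T (l + 2) * (T (l + 1) * Ach p T z l) = T (l + 1) * Ach p T z l * T (l + 2) := by
      exact (h2.mul_right h3).eq
    rw [mul_add, e1, e2]
    noncomm_ring

/-- normal form computation -/
lemma comm_step {ζ ω P S A A' C C' : B}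
    (hζ : ∀ b : B, b * ζ = ζ * b) (hω : ∀ b : B, b * ω = ω * b)
    (hPA : A * P = P * A) (hPA' : A' * P = P * A') (hPC : C * P = P * C) (hPC' : C' * P = P * C')
    (hSC : C * S = S * C) (hSC' : C' * S = S * C')
    (hSA : A * S = S * A + S * C) (hSA' : A' * S = S * A' + S * C')
    (hSP : S * P = P * S - S)
    (hAA : A' * A = A * A') (hCC : C' * C = C * C')
    (h1 : (ζ - ω) * (A * C' - C' * A + C * C') = C' * A - C * A')
    (h2 : A * C' - C' * A + C * C' = A' * C - C * A' + C' * C) :
    ((ζ - P) * A + S * C) * ((ω - P) * A' + S * C') =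
      ((ω - P) * A' + S * C') * ((ζ - P) * A + S * C) ∧
    (ζ - ω) * (((ζ - P) * A + S * C) * A' - A' * ((ζ - P) * A + S * C) + A * A') =
      A' * ((ζ - P) * A + S * C) - A * ((ω - P) * A' + S * C') := by
  have r (x y z' : B) (h : x * y = z') : ∀ t, x * (y * t) = z' * t := fun t => by
    rw [← mul_assoc, h]
  have q0 : A * ζ = ζ * A := hζ A
  have r0 : ∀ t, A * (ζ * t) = (ζ * A) * t := r _ _ _ q0
  have q1 : A' * ζ = ζ * A' := hζ A'
  have r1 : ∀ t, A' * (ζ * t) = (ζ * A') * t := r _ _ _ q1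
  have q2 : C * ζ = ζ * C := hζ C
  have r2 : ∀ t, C * (ζ * t) = (ζ * C) * t := r _ _ _ q2
  have q3 : C' * ζ = ζ * C' := hζ C'
  have r3 : ∀ t, C' * (ζ * t) = (ζ * C') * t := r _ _ _ q3
  have q4 : P * ζ = ζ * P := hζ P
  have r4 : ∀ t, P * (ζ * t) = (ζ * P) * t := r _ _ _ q4
  have q5 : S * ζ = ζ * S := hζ S
  have r5 : ∀ t, S * (ζ * t) = (ζ * S) * t := r _ _ _ q5
  have q6 : ω * ζ = ζ * ω := hζ ω
  have r6 : ∀ t, ω * (ζ * t) = (ζ * ω) * t := r _ _ _ q6
  have q7 : A * ω = ω * A := hω A
  have r7 : ∀ t, A * (ω * t) = (ω * A) * t := r _ _ _ q7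
  have q8 : A' * ω = ω * A' := hω A'
  have r8 : ∀ t, A' * (ω * t) = (ω * A') * t := r _ _ _ q8
  have q9 : C * ω = ω * C := hω C
  have r9 : ∀ t, C * (ω * t) = (ω * C) * t := r _ _ _ q9
  have q10 : C' * ω = ω * C' := hω C'
  have r10 : ∀ t, C' * (ω * t) = (ω * C') * t := r _ _ _ q10
  have q11 : P * ω = ω * P := hω P
  have r11 : ∀ t, P * (ω * t) = (ω * P) * t := r _ _ _ q11
  have q12 : S * ω = ω * S := hω S
  have r12 : ∀ t, S * (ω * t) = (ω * S) * t := r _ _ _ q12
  have q13 : A * P = P * A := hPA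
  have r13 : ∀ t, A * (P * t) = (P * A) * t := r _ _ _ q13
  have q14 : A' * P = P * A' := hPA'
  have r14 : ∀ t, A' * (P * t) = (P * A') * t := r _ _ _ q14
  have q15 : C * P = P * C := hPC
  have r15 : ∀ t, C * (P * t) = (P * C) * t := r _ _ _ q15
  have q16 : C' * P = P * C' := hPC'
  have r16 : ∀ t, C' * (P * t) = (P * C') * t := r _ _ _ q16
  have q17 : S * P = P * S - S := hSP
  have r17 : ∀ t, S * (P * t) = (P * S - S) * t := r _ _ _ q17
  have q18 : C * S = S * C := hSC
  have r18 : ∀ t, C * (S * t) = (S * C) * t := r _ _ _ q18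
  have q19 : C' * S = S * C' := hSC'
  have r19 : ∀ t, C' * (S * t) = (S * C') * t := r _ _ _ q19
  have q20 : A * S = S * A + S * C := hSA
  have r20 : ∀ t, A * (S * t) = (S * A + S * C) * t := r _ _ _ q20
  have q21 : A' * S = S * A' + S * C' := hSA'
  have r21 : ∀ t, A' * (S * t) = (S * A' + S * C') * t := r _ _ _ q21
  have q22 : A' * A = A * A' := hAA
  have r22 : ∀ t, A' * (A * t) = (A * A') * t := r _ _ _ q22
  have q23 : C' * C = C * C' := hCC
  have r23 : ∀ t, C' * (C * t) = (C * C') * t := r _ _ _ q23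
  have h1' := congrArg (fun t => S * t) h1
  have h2' := congrArg (fun t => S * t) h2
  have h2P := congrArg (fun t => P * (S * t)) h2
  have h2ω := congrArg (fun t => ω * (S * t)) h2
  have h2ζ := congrArg (fun t => ζ * (S * t)) h2
  constructor
  · rw [← sub_eq_zero]
    have e : (((ζ - P) * A + S * C) * ((ω - P) * A' + S * C') -
      ((ω - P) * A' + S * C') * ((ζ - P) * A + S * C)) =
      (S * ((ζ - ω) * (A * C' - C' * A + C * C')) - S * (C' * A - C * A')) +
      ((ω * (S * (A * C' - C' * A + C * C')) - ω * (S * (A' * C - C * A' + C' * C))) -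
      (P * (S * (A * C' - C' * A + C * C')) - P * (S * (A' * C - C * A' + C' * C)))) := by
      simp only [mul_add, add_mul, mul_sub, sub_mul, mul_assoc, q0, r0, q1, r1, q2, r2, q3, r3, q4, r4, q5, r5, q6, r6, q7, r7, q8, r8, q9, r9, q10, r10, q11, r11, q12, r12, q13, r13, q14, r14, q15, r15, q16, r16, q17, r17, q18, r18, q19, r19, q20, r20, q21, r21, q22, r22, q23, r23]
      abel
    rw [e]
    rw [h1', h2ω, h2P]
    simp
  · rw [← sub_eq_zero]
    have e : (ζ - ω) * (((ζ - P) * A + S * C) * A' - A' * ((ζ - P) * A + S * C) + A * A') -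
        (A' * ((ζ - P) * A + S * C) - A * ((ω - P) * A' + S * C')) =
      -(S * ((ζ - ω) * (A * C' - C' * A + C * C')) - S * (C' * A - C * A')) +
      ((ζ * (S * (A * C' - C' * A + C * C')) - ζ * (S * (A' * C - C * A' + C' * C))) -
      (ω * (S * (A * C' - C' * A + C * C')) - ω * (S * (A' * C - C * A' + C' * C)))) +
      (S * (A * C' - C' * A + C * C') - S * (A' * C - C * A' + C' * C)) := by
      simp only [mul_add, add_mul, mul_sub, sub_mul, mul_assoc, q0, r0, q1, r1, q2, r2, q3, r3, q4, r4, q5, r5, q6, r6, q7, r7, q8, r8, q9, r9, q10, r10, q11, r11, q12, r12, q13, r13, q14, r14, q15, r15, q16, r16, q17, r17, q18, r18, q19, r19, q20, r20, q21, r21, q22, r22, q23, r23]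
      abel
    rw [e]
    rw [h1', h2ω, h2ζ, h2']
    simp

/-- the two relations of the induction -/
def RR (p T : ℕ → B) (z w : ℂ) (l : ℕ) : Prop :=
  Ach p T z l * Ach p T w l = Ach p T w l * Ach p T z l ∧
  Ach p T z (l + 1) * Ach p T w (l + 1) = Ach p T w (l + 1) * Ach p T z (l + 1) ∧
  (algebraMap ℂ B z - algebraMap ℂ B w) * (Ach p T z (l + 1) * Ach p T w l -
    Ach p T w l * Ach p T z (l + 1) + Ach p T z l * Ach p T w l) =
    Ach p T w l * Ach p T z (l + 1) - Ach p T z l * Ach p T w (l + 1)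

lemma rr_all (h : TodaRel p T) (l : ℕ) : ∀ z w : ℂ, z ≠ w → RR p T z w l := by
  induction l with
  | zero =>
    intro z w hzw
    refine ⟨rfl, ?_, ?_⟩
    · show (algebraMap ℂ B z - p 1) * (algebraMap ℂ B w - p 1) =
        (algebraMap ℂ B w - p 1) * (algebraMap ℂ B z - p 1)
      have e1 : Commute (algebraMap ℂ B z - p 1) (algebraMap ℂ B w - p 1) := by
        apply Commute.sub_right
        · exact Algebra.commute_algebraMap_right _ _
        · exact (Algebra.commute_algebraMap_left _ _).sub_left (Commute.refl _)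
      exact e1.eq
    · show (algebraMap ℂ B z - algebraMap ℂ B w) * ((algebraMap ℂ B z - p 1) * 1 -
        1 * (algebraMap ℂ B z - p 1) + 1 * 1) =
        1 * (algebraMap ℂ B z - p 1) - 1 * (algebraMap ℂ B w - p 1)
      noncomm_ring
  | succ l ih =>
    intro z w hzw
    obtain ⟨hC, hA, hY⟩ := ih z w hzw
    obtain ⟨hC2, hA2, hY2⟩ := ih w z hzw.symm
    have hX : Ach p T z (l + 1) * Ach p T w l -
        Ach p T w l * Ach p T z (l + 1) + Ach p T z l * Ach p T w l =
        Ach p T w (l + 1) * Ach p T z l -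
        Ach p T z l * Ach p T w (l + 1) + Ach p T w l * Ach p T z l := by
      have e1 : (z - w) • (Ach p T z (l + 1) * Ach p T w l -
        Ach p T w l * Ach p T z (l + 1) + Ach p T z l * Ach p T w l) =
        Ach p T w l * Ach p T z (l + 1) - Ach p T z l * Ach p T w (l + 1) := by
        rw [← hY, ← map_sub, Algebra.smul_def]
      have e2 : (w - z) • (Ach p T w (l + 1) * Ach p T z l -
        Ach p T z l * Ach p T w (l + 1) + Ach p T w l * Ach p T z l) =
        Ach p T z l * Ach p T w (l + 1) - Ach p T w l * Ach p T z (l + 1) := by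
        rw [← hY2, ← map_sub, Algebra.smul_def]
      have e3 : (z - w) • (Ach p T z (l + 1) * Ach p T w l -
        Ach p T w l * Ach p T z (l + 1) + Ach p T z l * Ach p T w l) =
        (z - w) • (Ach p T w (l + 1) * Ach p T z l -
        Ach p T z l * Ach p T w (l + 1) + Ach p T w l * Ach p T z l) := by
        rw [e1, ← neg_sub w z, neg_smul, e2, neg_sub]
      exact smul_right_injective B (sub_ne_zero.mpr hzw) e3
    have hTA : ∀ u : ℂ, Ach p T u (l + 1) * T (l + 1) =
        T (l + 1) * Ach p T u (l + 1) + T (l + 1) * Ach p T u l := by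
      intro u
      have e1 := T_ach' h u l
      have e2 : Commute (T (l + 1)) (Ach p T u l) := (T_ach h u l).1 _ (by omega)
      rw [e1, e2.eq]
      noncomm_ring
    have hpA : ∀ u : ℂ, Ach p T u (l + 1) * p (l + 2) = p (l + 2) * Ach p T u (l + 1) :=
      fun u => ((p_ach h u (l + 1)).1 _ (by omega)).symm.eq
    have hpC : ∀ u : ℂ, Ach p T u l * p (l + 2) = p (l + 2) * Ach p T u l :=
      fun u => ((p_ach h u l).1 _ (by omega)).symm.eq
    have hTC : ∀ u : ℂ, Ach p T u l * T (l + 1) = T (l + 1) * Ach p T u l :=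
      fun u => ((T_ach h u l).1 _ (by omega)).symm.eq
    have hTp : T (l + 1) * p (l + 2) = p (l + 2) * T (l + 1) - T (l + 1) := by
      rw [h.2.2.2.2 (l + 1)]
      noncomm_ring
    have key := comm_step (ζ := algebraMap ℂ B z) (ω := algebraMap ℂ B w) (P := p (l + 2))
      (S := T (l + 1)) (A := Ach p T z (l + 1)) (A' := Ach p T w (l + 1)) (C := Ach p T z l)
      (C' := Ach p T w l) (fun b => (Algebra.commutes z b).symm)
      (fun b => (Algebra.commutes w b).symm) (hpA z) (hpA w) (hpC z) (hpC w) (hTC z) (hTC w)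
      (hTA z) (hTA w) hTp hA.symm hC.symm hY hX
    exact ⟨hA, key.1, key.2⟩

lemma ach_comm (h : TodaRel p T) (l : ℕ) (z w : ℂ) :
    Ach p T z l * Ach p T w l = Ach p T w l * Ach p T z l := by
  by_cases hzw : z = w
  · rw [hzw]
  · exact (rr_all h l z w hzw).1

/-- a polynomial with coefficients in a vector space vanishing everywhere has zero coefficients -/
lemma coef_zero {V : Type} [AddCommGroup V] [Module ℂ V] (l : ℕ) (v : ℕ → V)
    (h : ∀ z : ℂ, ∑ k ∈ Finset.range (l + 1), ((-1) ^ k * z ^ (l - k) : ℂ) • v k = 0) :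
    ∀ k, k ≤ l → v k = 0 := by
  intro k hk
  rw [← Module.forall_dual_apply_eq_zero_iff ℂ]
  intro f
  have h1 : (∑ k ∈ Finset.range (l + 1),
      Polynomial.C ((-1) ^ k * f (v k)) * Polynomial.X ^ (l - k) : Polynomial ℂ) = 0 := by
    apply Polynomial.funext
    intro z
    rw [Polynomial.eval_finset_sum, Polynomial.eval_zero]
    have h2 := congrArg f (h z)
    rw [map_sum, map_zero] at h2
    rw [← h2]
    apply Finset.sum_congr rfl
    intro j _
    rw [map_smul, smul_eq_mul, Polynomial.eval_mul, Polynomial.eval_C, Polynomial.eval_pow,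
      Polynomial.eval_X]
    ring
  have h2 := congrArg (fun q => Polynomial.coeff q (l - k)) h1
  simp only [Polynomial.finset_sum_coeff, Polynomial.coeff_C_mul, Polynomial.coeff_X_pow,
    Polynomial.coeff_zero] at h2
  rw [Finset.sum_eq_single k] at h2
  · simp only [if_true, mul_one] at h2
    have h3 : ((-1 : ℂ) ^ k) ≠ 0 := pow_ne_zero _ (by norm_num)
    exact (mul_eq_zero.mp h2).resolve_left h3
  · intro j hj hjk
    have hj' := Finset.mem_range.mp hj
    rw [if_neg (by omega), mul_zero]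
  · intro hk'
    exact absurd (Finset.mem_range.mpr (by omega)) hk'

end Chain

/-- WH-COMM -/
theorem t_comm : S_COEF → S_COMM := by
  intro hcoef B _ _ p T h l k k'
  have hA : ∀ z, Ach p T z l =
      ∑ k ∈ Finset.range (l + 1), ((-1) ^ k * z ^ (l - k) : ℂ) • Dch p T l k :=
    fun z => (hcoef B p T z l).2.2
  have hD : ∀ k, l < k → Dch p T l k = 0 := (hcoef B p T 0 l).1
  have s1 : ∀ w k, k ≤ l → Dch p T l k * Ach p T w l - Ach p T w l * Dch p T l k = 0 := by
    intro w
    apply coef_zero l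
    intro z
    have h1 := ach_comm h l z w
    rw [hA z, Finset.sum_mul, Finset.mul_sum, ← sub_eq_zero, ← Finset.sum_sub_distrib] at h1
    rw [← h1]
    apply Finset.sum_congr rfl
    intro j _
    rw [smul_sub, smul_mul_assoc, mul_smul_comm]
  have s2 : ∀ k, k ≤ l → ∀ k', k' ≤ l →
      Dch p T l k * Dch p T l k' - Dch p T l k' * Dch p T l k = 0 := by
    intro k hk
    apply coef_zero l
    intro w
    have h1 := s1 w k hk
    rw [hA w, Finset.sum_mul, Finset.mul_sum, ← Finset.sum_sub_distrib] at h1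
    rw [← h1]
    apply Finset.sum_congr rfl
    intro j _
    rw [smul_sub, smul_mul_assoc, mul_smul_comm]
  by_cases hk : k ≤ l
  · by_cases hk' : k' ≤ l
    · exact sub_eq_zero.mp (s2 k hk k' hk')
    · rw [hD k' (by omega)]
      exact Commute.zero_right _
  · rw [hD k (by omega)]
    exact Commute.zero_left _

end Pool.Agent.W782.WH
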