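import Pool.Agent.W181.WH.Stm

/-!
# Project WH (MP_2f3d29_nt, helper181): task WH-CONT
-/

set_option autoImplicit false

namespace Pool.Agent.W782.WH

open Pool.Agent.W181.WH

lemma cont_aux {A : Type} [CommRing A] [Algebra ℂ A] (ρ σ : ℕ → A) (a' : A) (z : ℂ)
    (h0 : ρ 0 = 0) (l : ℕ) :
    Ach (fun k => a' - ρ (k - 1) + σ k) (fun k => ρ k * σ k) z (l + 1) +
        σ (l + 1) * Ach (fun k => a' - ρ (k - 1) + σ k) (fun k => ρ k * σ k) z l =
      (algebraMap ℂ A z - a') * Ach (fun k => a' - ρ k + σ k) (fun k => σ (k + 1) * ρ k) z l ∧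
    Ach (fun k => a' - ρ (k - 1) + σ k) (fun k => ρ k * σ k) z (l + 1) =
      Ach (fun k => a' - ρ k + σ k) (fun k => σ (k + 1) * ρ k) z (l + 1) -
        ρ (l + 1) * Ach (fun k => a' - ρ k + σ k) (fun k => σ (k + 1) * ρ k) z l := by
  induction l with
  | zero =>
    simp only [Ach, zero_add, Nat.sub_self, h0]
    constructor <;> ring
  | succ l ih =>
    obtain ⟨h1, h2⟩ := ih
    have e1 : Ach (fun k => a' - ρ (k - 1) + σ k) (fun k => ρ k * σ k) z (l + 2) =
        (algebraMap ℂ A z - (a' - ρ (l + 1) + σ (l + 2))) *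
          Ach (fun k => a' - ρ (k - 1) + σ k) (fun k => ρ k * σ k) z (l + 1) +
        ρ (l + 1) * σ (l + 1) *
          Ach (fun k => a' - ρ (k - 1) + σ k) (fun k => ρ k * σ k) z l := rfl
    have e2 : Ach (fun k => a' - ρ k + σ k) (fun k => σ (k + 1) * ρ k) z (l + 2) =
        (algebraMap ℂ A z - (a' - ρ (l + 2) + σ (l + 2))) *
          Ach (fun k => a' - ρ k + σ k) (fun k => σ (k + 1) * ρ k) z (l + 1) +
        σ (l + 2) * ρ (l + 1) *
          Ach (fun k => a' - ρ k + σ k) (fun k => σ (k + 1) * ρ k) z l := rfl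
    have h3 : Ach (fun k => a' - ρ (k - 1) + σ k) (fun k => ρ k * σ k) z (l + 2) +
        σ (l + 2) * Ach (fun k => a' - ρ (k - 1) + σ k) (fun k => ρ k * σ k) z (l + 1) =
      (algebraMap ℂ A z - a') *
        Ach (fun k => a' - ρ k + σ k) (fun k => σ (k + 1) * ρ k) z (l + 1) := by
      rw [e1]
      linear_combination ρ (l + 1) * h1 + (algebraMap ℂ A z - a') * h2
    refine ⟨h3, ?_⟩
    show Ach (fun k => a' - ρ (k - 1) + σ k) (fun k => ρ k * σ k) z (l + 2) =
      Ach (fun k => a' - ρ k + σ k) (fun k => σ (k + 1) * ρ k) z (l + 2) -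
        ρ (l + 2) * Ach (fun k => a' - ρ k + σ k) (fun k => σ (k + 1) * ρ k) z (l + 1)
    rw [e2]
    linear_combination h3 - σ (l + 2) * h2

/-- WH-CONT -/
theorem t_cont : S_CONT := by
  intro n a z
  have h := (cont_aux (rho n) (sig n) (MvPolynomial.C a) z (by simp [rho]) n).1
  have h1 : sig n (n + 1) = 0 := by
    unfold sig
    rw [dif_neg (by omega)]
  rw [h1, zero_mul, add_zero] at h
  rw [h, map_sub]
  rfl

end Pool.Agent.W782.WH
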