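import Pool.Agent.W181.WH.Stm

/-!
# Project WH (MP_2f3d29_nt, helper181): task WH-STEP
-/

set_option autoImplicit false

open MeasureTheory

namespace Pool.Agent.W782.WH

open Pool.Agent.W181.WH

/-! ## growth -/

lemma expGr_iff {n : ℕ} {H : (Fin n → ℝ) → ℂ} (h : ExpGr H) :
    ∃ C b : ℝ, 0 ≤ C ∧ 0 ≤ b ∧ ∀ x, ‖H x‖ ≤ C * Real.exp (b * ∑ i, |x i|) := by
  obtain ⟨C, b, hb⟩ := h
  refine ⟨|C|, |b|, abs_nonneg _, abs_nonneg _, fun x => (hb x).trans ?_⟩
  have h0 : 0 ≤ ∑ i, |x i| := Finset.sum_nonneg fun i _ => abs_nonneg _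
  exact mul_le_mul (le_abs_self C) (Real.exp_le_exp.mpr
    (mul_le_mul_of_nonneg_right (le_abs_self b) h0)) (Real.exp_pos _).le (abs_nonneg _)

lemma expGr_add {n : ℕ} {F G : (Fin n → ℝ) → ℂ} (hF : ExpGr F) (hG : ExpGr G) :
    ExpGr (F + G) := by
  obtain ⟨C, b, hC, hb, h1⟩ := expGr_iff hF
  obtain ⟨C', b', hC', hb', h2⟩ := expGr_iff hG
  refine ⟨C + C', b + b', fun x => ?_⟩
  have h0 : 0 ≤ ∑ i, |x i| := Finset.sum_nonneg fun i _ => abs_nonneg _
  have e1 : Real.exp (b * ∑ i, |x i|) ≤ Real.exp ((b + b') * ∑ i, |x i|) :=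
    Real.exp_le_exp.mpr (mul_le_mul_of_nonneg_right (by linarith) h0)
  have e2 : Real.exp (b' * ∑ i, |x i|) ≤ Real.exp ((b + b') * ∑ i, |x i|) :=
    Real.exp_le_exp.mpr (mul_le_mul_of_nonneg_right (by linarith) h0)
  calc ‖(F + G) x‖ ≤ ‖F x‖ + ‖G x‖ := norm_add_le _ _
    _ ≤ C * Real.exp (b * ∑ i, |x i|) + C' * Real.exp (b' * ∑ i, |x i|) :=
        add_le_add (h1 x) (h2 x)
    _ ≤ C * Real.exp ((b + b') * ∑ i, |x i|) + C' * Real.exp ((b + b') * ∑ i, |x i|) :=
        add_le_add (mul_le_mul_of_nonneg_left e1 hC) (mul_le_mul_of_nonneg_left e2 hC')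
    _ = (C + C') * Real.exp ((b + b') * ∑ i, |x i|) := by ring

lemma expGr_smul {n : ℕ} {F : (Fin n → ℝ) → ℂ} (c : ℂ) (hF : ExpGr F) : ExpGr (c • F) := by
  obtain ⟨C, b, hC, hb, h1⟩ := expGr_iff hF
  refine ⟨‖c‖ * C, b, fun x => ?_⟩
  show ‖c * F x‖ ≤ _
  rw [norm_mul, mul_assoc]
  exact mul_le_mul_of_nonneg_left (h1 x) (norm_nonneg _)

lemma expGr_eij {n : ℕ} (i j : Fin n) {F : (Fin n → ℝ) → ℂ} (hF : ExpGr F) :
    ExpGr (fun x => eij i j x * F x) := by
  obtain ⟨C, b, hC, hb, h1⟩ := expGr_iff hF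
  refine ⟨Real.pi ^ 2 * C, 4 + b, fun x => ?_⟩
  have hi : |x i| ≤ ∑ k, |x k| :=
    Finset.single_le_sum (f := fun k => |x k|) (fun k _ => abs_nonneg _) (Finset.mem_univ i)
  have hj : |x j| ≤ ∑ k, |x k| :=
    Finset.single_le_sum (f := fun k => |x k|) (fun k _ => abs_nonneg _) (Finset.mem_univ j)
  have e1 : ‖eij i j x‖ = Real.pi ^ 2 * Real.exp (2 * (x j - x i)) := by
    unfold eij
    rw [Complex.norm_real, Real.norm_of_nonneg (by positivity)]
  have e2 : Real.exp (2 * (x j - x i)) ≤ Real.exp (4 * ∑ k, |x k|) := by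
    apply Real.exp_le_exp.mpr
    have := le_abs_self (x j)
    have := neg_abs_le (x i)
    linarith
  rw [norm_mul, e1]
  calc Real.pi ^ 2 * Real.exp (2 * (x j - x i)) * ‖F x‖
      ≤ Real.pi ^ 2 * Real.exp (4 * ∑ k, |x k|) * (C * Real.exp (b * ∑ i, |x i|)) := by
        apply mul_le_mul _ (h1 x) (norm_nonneg _) (by positivity)
        exact mul_le_mul_of_nonneg_left e2 (by positivity)
    _ = Real.pi ^ 2 * C * Real.exp ((4 + b) * ∑ i, |x i|) := by
        rw [add_mul, Real.exp_add]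
        ring

/-! ## good functions -/

/-- iterated partial derivatives as operators -/
noncomputable def LP {n : ℕ} (l : List (Fin n)) : Module.End ℂ (Sm n) := (l.map pdL).prod

lemma LP_val {n : ℕ} (l : List (Fin n)) (F : Sm n) : (LP l F).1 = l.foldr pd F.1 := by
  induction l with
  | nil => rfl
  | cons k l ih =>
    rw [List.foldr_cons, ← ih]
    rfl

/-- all iterated partial derivatives have exponential growth -/
def GoodS {n : ℕ} (F : Sm n) : Prop := ∀ l : List (Fin n), ExpGr (LP l F).1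

lemma goodS_of {n : ℕ} {H : (Fin n → ℝ) → ℂ} (hH : Good H) : GoodS (⟨H, hH.1⟩ : Sm n) := by
  intro l
  rw [LP_val]
  exact hH.2 l

lemma GoodS.add {n : ℕ} {F G : Sm n} (hF : GoodS F) (hG : GoodS G) : GoodS (F + G) := by
  intro l
  rw [map_add]
  exact expGr_add (hF l) (hG l)

lemma GoodS.smul {n : ℕ} {F : Sm n} (c : ℂ) (hF : GoodS F) : GoodS (c • F) := by
  intro l
  rw [map_smul]
  exact expGr_smul c (hF l)

lemma GoodS.zero {n : ℕ} : GoodS (0 : Sm n) := by
  intro l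
  rw [map_zero]
  exact ⟨0, 0, fun x => by simp⟩

lemma GoodS.pdL {n : ℕ} {F : Sm n} (k : Fin n) (hF : GoodS F) : GoodS (pdL k F) := by
  intro l
  have e : LP l (Pool.Agent.W181.WH.pdL k F) = LP (l ++ [k]) F := by
    unfold LP
    rw [List.map_append, List.prod_append]
    simp
  rw [e]
  exact hF _

lemma GoodS.expGr {n : ℕ} {F : Sm n} (hF : GoodS F) : ExpGr F.1 := hF []

lemma Sm_cd {n : ℕ} (F : Sm n) : ContDiff ℝ (⊤ : ℕ∞) F.1 := F.2

lemma hasFDerivAt_eij {n : ℕ} (i j : Fin n) (x : Fin n → ℝ) :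
    HasFDerivAt (eij i j) ((2 * eij i j x) • (Complex.ofRealCLM.comp
      (ContinuousLinearMap.proj (R := ℝ) (φ := fun _ : Fin n => ℝ) j -
        ContinuousLinearMap.proj (R := ℝ) (φ := fun _ : Fin n => ℝ) i))) x := by
  have h1 : HasFDerivAt (fun x : Fin n → ℝ => x j - x i)
      (ContinuousLinearMap.proj (R := ℝ) (φ := fun _ : Fin n => ℝ) j -
        ContinuousLinearMap.proj (R := ℝ) (φ := fun _ : Fin n => ℝ) i) x :=
    (hasFDerivAt_apply j x).sub (hasFDerivAt_apply i x)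
  have h2 := (((h1.const_mul 2).exp).const_mul (Real.pi ^ 2))
  have h3 := (Complex.ofRealCLM.hasFDerivAt (x := Real.pi ^ 2 * Real.exp (2 * (x j - x i)))).comp x h2
  refine h3.congr_fderiv ?_
  ext v
  simp [eij]
  ring

lemma pdL_mulL {n : ℕ} (k i j : Fin n) (F : Sm n) :
    pdL k (mulL (eij i j) (contDiff_eij i j) F) =
      mulL (eij i j) (contDiff_eij i j)
        ((2 * ((if j = k then 1 else 0) - (if i = k then 1 else 0)) : ℂ) • F + pdL k F) := by
  apply Subtype.ext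
  funext x
  have hF : DifferentiableAt ℝ F.1 x := ((Sm_cd F).differentiable (by simp)) x
  have h1 := (hasFDerivAt_eij i j x).mul hF.hasFDerivAt
  show fderiv ℝ (fun x => eij i j x * F.1 x) x (Pi.single k 1) =
    eij i j x * ((2 * ((if j = k then 1 else 0) - (if i = k then 1 else 0)) : ℂ) * F.1 x +
      fderiv ℝ F.1 x (Pi.single k 1))
  have h2 : fderiv ℝ (fun x => eij i j x * F.1 x) x = _ := h1.fderiv
  rw [h2]
  simp only [ContinuousLinearMap.add_apply, ContinuousLinearMap.smul_apply,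
    ContinuousLinearMap.comp_apply, ContinuousLinearMap.sub_apply,
    ContinuousLinearMap.proj_apply, Complex.ofRealCLM_apply, smul_eq_mul, Pi.single_apply]
  split_ifs <;> simp <;> ring

lemma GoodS.mulL {n : ℕ} {F : Sm n} (i j : Fin n) (hF : GoodS F) :
    GoodS (mulL (eij i j) (contDiff_eij i j) F) := by
  intro l
  have key : ∃ G : Sm n, GoodS G ∧ LP l (Pool.Agent.W181.WH.mulL (eij i j) (contDiff_eij i j) F) =
      Pool.Agent.W181.WH.mulL (eij i j) (contDiff_eij i j) G := by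
    induction l with
    | nil => exact ⟨F, hF, rfl⟩
    | cons k l ih =>
      obtain ⟨G, hG, e⟩ := ih
      refine ⟨(2 * ((if j = k then 1 else 0) - (if i = k then 1 else 0)) : ℂ) • G +
        Pool.Agent.W181.WH.pdL k G, (hG.smul _).add (hG.pdL k), ?_⟩
      rw [← pdL_mulL, ← e]
      rfl
  obtain ⟨G, hG, e⟩ := key
  rw [e]
  exact expGr_eij i j hG.expGr

/-! ## the chain as operators -/

lemma ach_op {V : Type} [AddCommGroup V] [Module ℂ V] (p T : ℕ → Module.End ℂ V) (z : ℂ) (l : ℕ)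
    (v : V) : Ach p T z (l + 2) v =
      z • Ach p T z (l + 1) v - p (l + 2) (Ach p T z (l + 1) v) + T (l + 1) (Ach p T z l v) := by
  show ((algebraMap ℂ (Module.End ℂ V) z - p (l + 2)) * Ach p T z (l + 1) +
    T (l + 1) * Ach p T z l) v = _
  simp [Module.algebraMap_end_apply]

lemma ach_op1 {V : Type} [AddCommGroup V] [Module ℂ V] (p T : ℕ → Module.End ℂ V) (z : ℂ)
    (v : V) : Ach p T z 1 v = z • v - p 1 v := by
  show (algebraMap ℂ (Module.End ℂ V) z - p 1) v = _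
  simp [Module.algebraMap_end_apply]

lemma goodS_pX {n : ℕ} {F : Sm n} (hF : GoodS F) (k : ℕ) : GoodS (pX n k F) := by
  unfold pX
  split_ifs with h
  · exact (hF.pdL _).smul _
  · exact GoodS.zero

lemma goodS_TX {n : ℕ} {F : Sm n} (hF : GoodS F) (k : ℕ) : GoodS (TX n k F) := by
  unfold TX
  split_ifs with h
  · exact hF.mulL _ _
  · exact GoodS.zero

lemma goodS_ach {n : ℕ} {F : Sm n} (hF : GoodS F) (z : ℂ) (l : ℕ) :
    GoodS (Ach (pX n) (TX n) z l F) ∧ GoodS (Ach (pX n) (TX n) z (l + 1) F) := by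
  induction l with
  | zero =>
    refine ⟨hF, ?_⟩
    rw [zero_add, ach_op1, sub_eq_add_neg, ← neg_one_smul ℂ (pX n 1 F)]
    exact (hF.smul _).add ((goodS_pX hF 1).smul _)
  | succ l ih =>
    refine ⟨ih.2, ?_⟩
    rw [ach_op, sub_eq_add_neg, ← neg_one_smul ℂ (pX n _ _)]
    exact ((ih.2.smul _).add ((goodS_pX ih.2 _).smul _)).add (goodS_TX ih.1 _)

/-! ## derivations kill the chain -/

lemma der_ach {A : Type} [CommRing A] [Algebra ℂ A] (D : Derivation ℂ A A) (p T : ℕ → A) (z : ℂ)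
    (l : ℕ) :
    ((∀ k, k ≤ l → D (p k) = 0) → (∀ k, k < l → D (T k) = 0) → D (Ach p T z l) = 0) ∧
    ((∀ k, k ≤ l + 1 → D (p k) = 0) → (∀ k, k < l + 1 → D (T k) = 0) →
      D (Ach p T z (l + 1)) = 0) := by
  induction l with
  | zero =>
    refine ⟨fun _ _ => D.map_one_eq_zero, fun h1 _ => ?_⟩
    show D (algebraMap ℂ A z - p 1) = 0
    rw [map_sub, D.map_algebraMap, h1 1 (by omega), sub_zero]
  | succ l ih =>
    refine ⟨ih.2, fun h1 h2 => ?_⟩
    show D ((algebraMap ℂ A z - p (l + 2)) * Ach p T z (l + 1) + T (l + 1) * Ach p T z l) = 0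
    rw [map_add, D.leibniz, D.leibniz, map_sub, D.map_algebraMap, h1 (l + 2) (by omega),
      h2 (l + 1) (by omega), ih.1 (fun k hk => h1 k (by omega)) (fun k hk => h2 k (by omega)),
      ih.2 (fun k hk => h1 k (by omega)) (fun k hk => h2 k (by omega))]
    simp

/-! ## the maps `f ↦ KK a H f` -/

/-- `KK` is linear in `f` -/
noncomputable def KKS (hI : S_KKI) (hD : S_KKD) {n : ℕ} (a : ℂ) (H : (Fin n → ℝ) → ℂ)
    (hc : Continuous H) (he : ExpGr H) :
    MvPolynomial (Fin n ⊕ Fin n) ℂ →ₗ[ℂ] Sm (n + 1) where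
  toFun f := ⟨KK a H f, (hD n a H hc he f).1.1⟩
  map_add' := by
    intro f g
    apply Subtype.ext
    funext x
    show KK a H (f + g) x = KK a H f x + KK a H g x
    unfold KK
    rw [← integral_add ((hI n a H f hc he).1 x) ((hI n a H g hc he).1 x)]
    apply integral_congr_ae
    filter_upwards with t
    rw [map_add]
    ring
  map_smul' := by
    intro c f
    apply Subtype.ext
    funext x
    show KK a H (c • f) x = c * KK a H f x
    unfold KK
    rw [← integral_const_mul]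
    apply integral_congr_ae
    filter_upwards with t
    rw [MvPolynomial.smul_eval]
    ring

lemma KKS_val (hI : S_KKI) (hD : S_KKD) {n : ℕ} (a : ℂ) (H : (Fin n → ℝ) → ℂ)
    (hc : Continuous H) (he : ExpGr H) (f : MvPolynomial (Fin n ⊕ Fin n) ℂ) :
    (KKS hI hD a H hc he f).1 = KK a H f := rfl

lemma pX_KKS (hI : S_KKI) (hD : S_KKD) {n : ℕ} (a : ℂ) (H : (Fin n → ℝ) → ℂ)
    (hc : Continuous H) (he : ExpGr H) (f : MvPolynomial (Fin n ⊕ Fin n) ℂ) (k : ℕ)
    (hk : k < n + 1) :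
    pX (n + 1) (k + 1) (KKS hI hD a H hc he f) = KKS hI hD a H hc he (dX a ⟨k, hk⟩ f) := by
  unfold pX
  rw [dif_pos ⟨by omega, by omega⟩]
  apply Subtype.ext
  funext x
  show (1 / 2 : ℂ) * pd ⟨k, hk⟩ (KK a H f) x = KK a H (dX a ⟨k, hk⟩ f) x
  rw [(hD n a H hc he f).2 ⟨k, hk⟩ x]
  ring

lemma TX_KKS (hI : S_KKI) (hD : S_KKD) {n : ℕ} (a : ℂ) (H : (Fin n → ℝ) → ℂ)
    (hc : Continuous H) (he : ExpGr H) (f : MvPolynomial (Fin n ⊕ Fin n) ℂ) (k : ℕ)
    (hk : k < n) :
    TX (n + 1) (k + 1) (KKS hI hD a H hc he f) =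
      KKS hI hD a H hc he (rho n (k + 1) * sig n (k + 1) * f) := by
  unfold TX
  rw [dif_pos ⟨by omega, by omega⟩]
  apply Subtype.ext
  funext x
  show eij ⟨k, by omega⟩ ⟨k + 1, by omega⟩ x * KK a H f x =
    KK a H (rho n (k + 1) * sig n (k + 1) * f) x
  unfold KK
  rw [← integral_const_mul]
  apply integral_congr_ae
  filter_upwards with t
  have e1 : MvPolynomial.eval (rs x t) (rho n (k + 1)) =
      ((Real.pi * Real.exp (2 * (x ⟨k + 1, by omega⟩ - t ⟨k, hk⟩)) : ℝ) : ℂ) := by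
    unfold rho
    rw [dif_pos ⟨by omega, by omega⟩, MvPolynomial.eval_X]
    rfl
  have e2 : MvPolynomial.eval (rs x t) (sig n (k + 1)) =
      ((Real.pi * Real.exp (2 * (t ⟨k, hk⟩ - x ⟨k, by omega⟩)) : ℝ) : ℂ) := by
    unfold sig
    rw [dif_pos ⟨by omega, by omega⟩, MvPolynomial.eval_X]
    rfl
  have e3 : eij (⟨k, by omega⟩ : Fin (n + 1)) ⟨k + 1, by omega⟩ x =
      MvPolynomial.eval (rs x t) (rho n (k + 1)) * MvPolynomial.eval (rs x t) (sig n (k + 1)) := by
    rw [e1, e2, ← Complex.ofReal_mul]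
    unfold eij
    congr 1
    have : Real.exp (2 * (x ⟨k + 1, by omega⟩ - x ⟨k, by omega⟩)) =
        Real.exp (2 * (x ⟨k + 1, by omega⟩ - t ⟨k, hk⟩)) *
        Real.exp (2 * (t ⟨k, hk⟩ - x ⟨k, by omega⟩)) := by
      rw [← Real.exp_add]
      ring_nf
    rw [this]
    ring
  rw [e3, map_mul, map_mul]
  ring

/-- the first chain -/
noncomputable def aC (n : ℕ) (a z : ℂ) (l : ℕ) : MvPolynomial (Fin n ⊕ Fin n) ℂ :=
  Ach (fun k => MvPolynomial.C a - rho n (k - 1) + sig n k) (fun k => rho n k * sig n k) z l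

/-- the second chain -/
noncomputable def bC (n : ℕ) (a z : ℂ) (l : ℕ) : MvPolynomial (Fin n ⊕ Fin n) ℂ :=
  Ach (fun k => MvPolynomial.C a - rho n k + sig n k) (fun k => sig n (k + 1) * rho n k) z l

lemma pderiv_rho {n : ℕ} (o : Fin n ⊕ Fin n) (k : ℕ)
    (h : ∀ j : Fin n, o = Sum.inl j → k ≠ (j : ℕ) + 1) : MvPolynomial.pderiv o (rho n k) = 0 := by
  unfold rho
  split_ifs with hk
  · rw [MvPolynomial.pderiv_X, Pi.single_eq_of_ne]
    intro h'
    exact h ⟨k - 1, by omega⟩ h'.symm (by simp; omega)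
  · exact map_zero _

lemma pderiv_sig {n : ℕ} (o : Fin n ⊕ Fin n) (k : ℕ)
    (h : ∀ j : Fin n, o = Sum.inr j → k ≠ (j : ℕ) + 1) : MvPolynomial.pderiv o (sig n k) = 0 := by
  unfold sig
  split_ifs with hk
  · rw [MvPolynomial.pderiv_X, Pi.single_eq_of_ne]
    intro h'
    exact h ⟨k - 1, by omega⟩ h'.symm (by simp; omega)
  · exact map_zero _

lemma pderiv_aC_inl {n : ℕ} (a z : ℂ) (l : ℕ) (j : Fin n) (h : l ≤ (j : ℕ) + 1) :
    MvPolynomial.pderiv (Sum.inl j) (aC n a z l) = 0 := by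
  refine (der_ach (MvPolynomial.pderiv (Sum.inl j)) _ _ z l).1 ?_ ?_
  · intro k hk
    rw [map_add, map_sub, MvPolynomial.pderiv_C, pderiv_rho, pderiv_sig]
    · simp
    · intro j' h'
      cases h'
    · intro j' h'
      have := Sum.inl.inj h'
      subst this
      omega
  · intro k hk
    rw [Derivation.leibniz, pderiv_rho, pderiv_sig]
    · simp
    · intro j' h'
      cases h'
    · intro j' h'
      have := Sum.inl.inj h'
      subst this
      omega

lemma pderiv_aC_inr {n : ℕ} (a z : ℂ) (l : ℕ) (j : Fin n) (h : l ≤ (j : ℕ)) :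
    MvPolynomial.pderiv (Sum.inr j) (aC n a z l) = 0 := by
  refine (der_ach (MvPolynomial.pderiv (Sum.inr j)) _ _ z l).1 ?_ ?_
  · intro k hk
    rw [map_add, map_sub, MvPolynomial.pderiv_C, pderiv_rho, pderiv_sig]
    · simp
    · intro j' h'
      have := Sum.inr.inj h'
      subst this
      omega
    · intro j' h'
      cases h'
  · intro k hk
    rw [Derivation.leibniz, pderiv_rho, pderiv_sig]
    · simp
    · intro j' h'
      have := Sum.inr.inj h'
      subst this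
      omega
    · intro j' h'
      cases h'

lemma dX_aC {n : ℕ} (a z : ℂ) (l : ℕ) (hl : l < n + 1) :
    dX a ⟨l, hl⟩ (aC n a z l) =
      (MvPolynomial.C a - rho n l + sig n (l + 1)) * aC n a z l := by
  unfold dX
  have e1 : (if h : 1 ≤ ((⟨l, hl⟩ : Fin (n + 1)) : ℕ) then
      MvPolynomial.X (Sum.inl ⟨((⟨l, hl⟩ : Fin (n + 1)) : ℕ) - 1, by omega⟩) *
        MvPolynomial.pderiv (Sum.inl ⟨((⟨l, hl⟩ : Fin (n + 1)) : ℕ) - 1, by omega⟩) (aC n a z l)
      else 0 : MvPolynomial (Fin n ⊕ Fin n) ℂ) = 0 := by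
    split_ifs with h
    · rw [pderiv_aC_inl, mul_zero]
      simp only at h ⊢
      omega
    · rfl
  have e2 : (if h : ((⟨l, hl⟩ : Fin (n + 1)) : ℕ) < n then
      MvPolynomial.X (Sum.inr ⟨((⟨l, hl⟩ : Fin (n + 1)) : ℕ), h⟩) *
        MvPolynomial.pderiv (Sum.inr ⟨((⟨l, hl⟩ : Fin (n + 1)) : ℕ), h⟩) (aC n a z l)
      else 0 : MvPolynomial (Fin n ⊕ Fin n) ℂ) = 0 := by
    split_ifs with h
    · rw [pderiv_aC_inr, mul_zero]
      simp only at h ⊢
      omega
    · rfl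
  rw [e1, e2]
  simp

/-- step (1) -/
lemma step1 (hI : S_KKI) (hD : S_KKD) {n : ℕ} (a z : ℂ) (H : (Fin n → ℝ) → ℂ)
    (hc : Continuous H) (he : ExpGr H) (l : ℕ) (hl : l < n + 1) :
    Ach (pX (n + 1)) (TX (n + 1)) z l (KKS hI hD a H hc he 1) =
      KKS hI hD a H hc he (aC n a z l) ∧
    Ach (pX (n + 1)) (TX (n + 1)) z (l + 1) (KKS hI hD a H hc he 1) =
      KKS hI hD a H hc he (aC n a z (l + 1)) := by
  induction l with
  | zero =>
    refine ⟨rfl, ?_⟩
    rw [zero_add, ach_op1, show pX (n + 1) 1 = pX (n + 1) (0 + 1) by rw [zero_add],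
      pX_KKS hI hD a H hc he 1 0 hl, ← map_smul, ← map_sub]
    congr 1
    have := dX_aC (n := n) a z 0 hl
    rw [show (aC n a z 0) = 1 from rfl] at this
    rw [this]
    show z • 1 - _ = algebraMap ℂ _ z - (MvPolynomial.C a - rho n (1 - 1) + sig n 1)
    rw [Algebra.algebraMap_eq_smul_one]
    simp
  | succ l ih =>
    have ih' := ih (by omega)
    refine ⟨ih'.2, ?_⟩
    rw [ach_op, ih'.1, ih'.2, pX_KKS hI hD a H hc he _ (l + 1) (by omega),
      TX_KKS hI hD a H hc he _ l (by omega), ← map_smul, ← map_sub, ← map_add, dX_aC a z (l + 1) hl]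
    congr 1
    show _ = (algebraMap ℂ _ z - (MvPolynomial.C a - rho n (l + 2 - 1) + sig n (l + 2))) *
      aC n a z (l + 1) + rho n (l + 1) * sig n (l + 1) * aC n a z l
    rw [sub_mul, Algebra.smul_def]
    rfl

/-! ## linearity in `H` -/

lemma KK_add (hI : S_KKI) {n : ℕ} (a : ℂ) (F G : Sm n) (hF : GoodS F) (hG : GoodS G)
    (f : MvPolynomial (Fin n ⊕ Fin n) ℂ) (x : Fin (n + 1) → ℝ) :
    KK a (F + G).1 f x = KK a F.1 f x + KK a G.1 f x := by
  unfold KK
  rw [← integral_add ((hI n a F.1 f (Sm_cd F).continuous hF.expGr).1 x)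
    ((hI n a G.1 f (Sm_cd G).continuous hG.expGr).1 x)]
  apply integral_congr_ae
  filter_upwards with t
  show _ * (F.1 t + G.1 t) = _
  ring

lemma KK_smul {n : ℕ} (a c : ℂ) (F : Sm n)
    (f : MvPolynomial (Fin n ⊕ Fin n) ℂ) (x : Fin (n + 1) → ℝ) :
    KK a (c • F).1 f x = c * KK a F.1 f x := by
  unfold KK
  rw [← integral_const_mul]
  apply integral_congr_ae
  filter_upwards with t
  show _ * (c * F.1 t) = _
  ring

lemma KK_pX (hP : S_IBP) {n : ℕ} (a : ℂ) (F : Sm n) (hF : GoodS F)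
    (f : MvPolynomial (Fin n ⊕ Fin n) ℂ) (x : Fin (n + 1) → ℝ) (k : ℕ) (hk : k < n)
    (h1 : MvPolynomial.pderiv (Sum.inl ⟨k, hk⟩) f = 0)
    (h2 : MvPolynomial.pderiv (Sum.inr ⟨k, hk⟩) f = 0) :
    KK a (pX n (k + 1) F).1 f x =
      KK a F.1 ((MvPolynomial.C a - rho n (k + 1) + sig n (k + 1)) * f) x := by
  have e1 : pX n (k + 1) F = (1 / 2 : ℂ) • pdL ⟨k, hk⟩ F := by
    unfold pX
    rw [dif_pos ⟨by omega, by omega⟩]
    rfl
  rw [e1, KK_smul]
  have e2 := hP n a ⟨k, hk⟩ F.1 f ((Sm_cd F).of_le (by exact_mod_cast le_top)) hF.expGr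
    (hF.pdL ⟨k, hk⟩).expGr x
  have e3 : (pdL ⟨k, hk⟩ F).1 = pd ⟨k, hk⟩ F.1 := rfl
  rw [e3, e2]
  congr 1
  unfold dT
  rw [h1, h2]
  unfold rho sig
  rw [dif_pos ⟨by omega, by omega⟩, dif_pos ⟨by omega, by omega⟩]
  simp

lemma KK_TX {n : ℕ} (a : ℂ) (F : Sm n)
    (f : MvPolynomial (Fin n ⊕ Fin n) ℂ) (x : Fin (n + 1) → ℝ) (k : ℕ) (hk : k + 1 < n) :
    KK a (TX n (k + 1) F).1 f x = KK a F.1 (sig n (k + 2) * rho n (k + 1) * f) x := by
  have e1 : TX n (k + 1) F = mulL (eij ⟨k, by omega⟩ ⟨k + 1, hk⟩) (contDiff_eij _ _) F := by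
    unfold TX
    rw [dif_pos ⟨by omega, by omega⟩]
    rfl
  rw [e1]
  unfold KK
  apply integral_congr_ae
  filter_upwards with t
  show _ * (eij ⟨k, by omega⟩ ⟨k + 1, hk⟩ t * F.1 t) = _
  have e1 : MvPolynomial.eval (rs x t) (rho n (k + 1)) =
      ((Real.pi * Real.exp (2 * (x ⟨k + 1, by omega⟩ - t ⟨k, by omega⟩)) : ℝ) : ℂ) := by
    unfold rho
    rw [dif_pos ⟨by omega, by omega⟩, MvPolynomial.eval_X]
    rfl
  have e2 : MvPolynomial.eval (rs x t) (sig n (k + 2)) =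
      ((Real.pi * Real.exp (2 * (t ⟨k + 1, hk⟩ - x ⟨k + 1, by omega⟩)) : ℝ) : ℂ) := by
    unfold sig
    rw [dif_pos ⟨by omega, by omega⟩, MvPolynomial.eval_X]
    rfl
  have e3 : eij (⟨k, by omega⟩ : Fin n) ⟨k + 1, hk⟩ t =
      MvPolynomial.eval (rs x t) (sig n (k + 2)) * MvPolynomial.eval (rs x t) (rho n (k + 1)) := by
    rw [e1, e2, ← Complex.ofReal_mul]
    unfold eij
    congr 1
    have : Real.exp (2 * (t ⟨k + 1, hk⟩ - t ⟨k, by omega⟩)) =
        Real.exp (2 * (t ⟨k + 1, hk⟩ - x ⟨k + 1, by omega⟩)) *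
        Real.exp (2 * (x ⟨k + 1, by omega⟩ - t ⟨k, by omega⟩)) := by
      rw [← Real.exp_add]
      ring_nf
    rw [this]
    ring
  rw [e3, map_mul, map_mul]
  ring

/-- step (2) -/
lemma step2 (hI : S_KKI) (hP : S_IBP) {n : ℕ} (a z : ℂ) (F : Sm n) (hF : GoodS F) (l : ℕ) :
    (l ≤ n → ∀ f : MvPolynomial (Fin n ⊕ Fin n) ℂ,
      (∀ j : Fin n, (j : ℕ) < l → MvPolynomial.pderiv (Sum.inl j) f = 0 ∧
        MvPolynomial.pderiv (Sum.inr j) f = 0) →
      ∀ x, KK a (Ach (pX n) (TX n) z l F).1 f x = KK a F.1 (bC n a z l * f) x) ∧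
    (l + 1 ≤ n → ∀ f : MvPolynomial (Fin n ⊕ Fin n) ℂ,
      (∀ j : Fin n, (j : ℕ) < l + 1 → MvPolynomial.pderiv (Sum.inl j) f = 0 ∧
        MvPolynomial.pderiv (Sum.inr j) f = 0) →
      ∀ x, KK a (Ach (pX n) (TX n) z (l + 1) F).1 f x = KK a F.1 (bC n a z (l + 1) * f) x) := by
  have lin : ∀ (f g : MvPolynomial (Fin n ⊕ Fin n) ℂ) (x : Fin (n + 1) → ℝ),
      KK a F.1 (f + g) x = KK a F.1 f x + KK a F.1 g x := by
    intro f g x
    unfold KK
    rw [← integral_add ((hI n a F.1 f (Sm_cd F).continuous hF.expGr).1 x)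
      ((hI n a F.1 g (Sm_cd F).continuous hF.expGr).1 x)]
    apply integral_congr_ae
    filter_upwards with t
    rw [map_add]
    ring
  have linc : ∀ (c : ℂ) (f : MvPolynomial (Fin n ⊕ Fin n) ℂ) (x : Fin (n + 1) → ℝ),
      KK a F.1 (MvPolynomial.C c * f) x = c * KK a F.1 f x := by
    intro c f x
    unfold KK
    rw [← integral_const_mul]
    apply integral_congr_ae
    filter_upwards with t
    rw [map_mul, MvPolynomial.eval_C]
    ring
  induction l with
  | zero =>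
    refine ⟨fun _ f _ x => ?_, fun hn f hf x => ?_⟩
    · show KK a F.1 f x = KK a F.1 (1 * f) x
      rw [one_mul]
    · rw [zero_add, ach_op1, sub_eq_add_neg, ← neg_one_smul ℂ (pX n 1 F),
        KK_add hI a _ _ (hF.smul _) ((goodS_pX hF 1).smul _), KK_smul, KK_smul]
      have h0 := hf ⟨0, by omega⟩ (by simp)
      rw [show (1 : ℕ) = 0 + 1 by rfl, KK_pX hP a F hF f x 0 (by omega) h0.1 h0.2, ← linc, ← linc,
        ← lin]
      congr 1
      show _ = (algebraMap ℂ _ z - (MvPolynomial.C a - rho n 1 + sig n 1)) * f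
      rw [MvPolynomial.algebraMap_eq]
      simp only [zero_add, MvPolynomial.C_neg, map_one]
      ring
  | succ l ih =>
    refine ⟨ih.2, fun hn f hf x => ?_⟩
    have hA := goodS_ach hF z l
    have h0 := hf ⟨l + 1, by omega⟩ (by simp)
    have e1 : pX n (l + 2) (Ach (pX n) (TX n) z (l + 1) F) =
      pX n (l + 1 + 1) (Ach (pX n) (TX n) z (l + 1) F) := rfl
    rw [ach_op, sub_eq_add_neg, ← neg_one_smul ℂ (pX n _ _),
      KK_add hI a _ _ ((hA.2.smul _).add ((goodS_pX hA.2 _).smul _)) (goodS_TX hA.1 _),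
      KK_add hI a _ _ (hA.2.smul _) ((goodS_pX hA.2 _).smul _), KK_smul, KK_smul, e1,
      KK_pX hP a _ hA.2 f x (l + 1) (by omega) h0.1 h0.2,
      KK_TX a _ f x l (by omega),
      ih.2 (by omega) f (fun j hj => hf j (by omega)),
      ih.2 (by omega) _ ?_, ih.1 (by omega) _ ?_, ← linc, ← linc, ← lin, ← lin]
    · congr 1
      show _ = ((algebraMap ℂ _ z - (MvPolynomial.C a - rho n (l + 2) + sig n (l + 2))) *
        bC n a z (l + 1) + sig n (l + 2) * rho n (l + 1) * bC n a z l) * f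
      rw [MvPolynomial.algebraMap_eq]
      simp only [MvPolynomial.C_neg, map_one]
      ring
    · intro j hj
      have hj1 : (j : ℕ) < l := hj
      obtain ⟨d1, d2⟩ := hf j (by omega)
      rw [Derivation.leibniz, Derivation.leibniz, Derivation.leibniz, Derivation.leibniz, d1, d2,
        pderiv_rho, pderiv_rho, pderiv_sig, pderiv_sig]
      · simp
      all_goals
        intro j' h'
        first
          | (cases h'; done)
          | (have h'' := Sum.inl.inj h'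
             subst h''
             omega)
          | (have h'' := Sum.inr.inj h'
             subst h''
             omega)
    · intro j hj
      have hj1 : (j : ℕ) < l + 1 := hj
      obtain ⟨d1, d2⟩ := hf j (by omega)
      rw [Derivation.leibniz, Derivation.leibniz, d1, d2, map_add, map_add, map_sub, map_sub,
        MvPolynomial.pderiv_C, MvPolynomial.pderiv_C,
        pderiv_rho, pderiv_rho, pderiv_sig, pderiv_sig]
      · simp
      all_goals
        intro j' h'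
        first
          | (cases h'; done)
          | (have h'' := Sum.inl.inj h'
             subst h''
             omega)
          | (have h'' := Sum.inr.inj h'
             subst h''
             omega)

/-- WH-STEP -/
theorem t_step : S_KKI → S_KKD → S_IBP → S_CONT → S_STEP := by
  intro hI hD hP hC n a z c H hH hEig
  have hc : Continuous H := hH.1.continuous
  have he : ExpGr H := hH.2 []
  refine ⟨(hD n a H hc he 1).1, ?_⟩
  have s1 := (step1 hI hD a z H hc he n (by omega)).2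
  have s2 := (step2 hI hP a z (⟨H, hH.1⟩ : Sm n) (goodS_of hH) n).1 le_rfl 1
    (fun j _ => ⟨Derivation.map_one_eq_zero _, Derivation.map_one_eq_zero _⟩)
  have hcont : aC n a z (n + 1) = MvPolynomial.C (z - a) * bC n a z n := hC n a z
  have s3 : KKS hI hD a H hc he (bC n a z n) = c • KKS hI hD a H hc he 1 := by
    apply Subtype.ext
    funext x
    have h1 := s2 x
    rw [hEig, KK_smul, mul_one] at h1
    exact h1.symm
  have s4 : Ach (pX (n + 1)) (TX (n + 1)) z (n + 1) (KKS hI hD a H hc he 1) =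
      ((z - a) * c) • KKS hI hD a H hc he 1 := by
    rw [s1, hcont, ← MvPolynomial.smul_eq_C_mul, map_smul, s3, smul_smul]
  exact s4

end Pool.Agent.W782.WH
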