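import Pool.Agent.W181.WH.Stm

/-!
# Project WH (MP_2f3d29_nt, helper181): task WH-XI
-/

set_option autoImplicit false

open MeasureTheory

namespace Pool.Agent.W782.WH.XI

open Pool.Agent.W181.WH

lemma Sm_cd {n : ℕ} (F : Sm n) : ContDiff ℝ (⊤ : ℕ∞) F.1 := F.2

/-- `xiOf` as a continuous linear map -/
noncomputable def xiL (N : ℕ) : (Fin (N + 1) → ℝ) →L[ℝ] (Fin N → ℝ) :=
  ContinuousLinearMap.pi fun j =>
    ContinuousLinearMap.proj (R := ℝ) (φ := fun _ : Fin (N + 1) => ℝ) j.succ -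
      ContinuousLinearMap.proj (R := ℝ) (φ := fun _ : Fin (N + 1) => ℝ) j.castSucc

lemma xiL_apply {N : ℕ} (x : Fin (N + 1) → ℝ) : xiL N x = xiOf x := rfl

/-- the pull back by `xiOf` -/
noncomputable def pull (N : ℕ) : Sm N →ₗ[ℂ] Sm (N + 1) where
  toFun F := ⟨fun x => F.1 (xiOf x), (Sm_cd F).comp (xiL N).contDiff⟩
  map_add' := fun F G => rfl
  map_smul' := fun c F => rfl

lemma pull_val {N : ℕ} (F : Sm N) (x : Fin (N + 1) → ℝ) : (pull N F).1 x = F.1 (xiOf x) := rfl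

/-- partial derivatives, `0` for indices out of range -/
noncomputable def pdN (N : ℕ) (k : ℕ) : Module.End ℂ (Sm N) :=
  if h : 1 ≤ k ∧ k ≤ N then pdL ⟨k - 1, by omega⟩ else 0

lemma fderiv_pull {N : ℕ} (F : Sm N) (x v : Fin (N + 1) → ℝ) :
    fderiv ℝ (fun x => F.1 (xiOf x)) x v = fderiv ℝ F.1 (xiOf x) (xiOf v) := by
  have h1 : HasFDerivAt F.1 (fderiv ℝ F.1 (xiOf x)) (xiL N x) :=
    (((Sm_cd F).differentiable (by simp)) (xiOf x)).hasFDerivAt
  have h2 := h1.comp x (xiL N).hasFDerivAt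
  have h3 : fderiv ℝ (fun x => F.1 (xiOf x)) x = _ := h2.fderiv
  rw [h3]
  rfl

lemma xi_single {N : ℕ} (i : Fin (N + 1)) :
    xiOf (Pi.single i (1 : ℝ)) =
      (if h : 1 ≤ (i : ℕ) then Pi.single (⟨(i : ℕ) - 1, by omega⟩ : Fin N) (1 : ℝ) else 0) -
      (if h : (i : ℕ) < N then Pi.single (⟨(i : ℕ), h⟩ : Fin N) (1 : ℝ) else 0) := by
  funext j
  show (Pi.single i (1 : ℝ) : Fin (N + 1) → ℝ) j.succ -
    (Pi.single i (1 : ℝ) : Fin (N + 1) → ℝ) j.castSucc = _
  rw [Pi.sub_apply]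
  congr 1
  · split_ifs with h
    · rw [Pi.single_apply, Pi.single_apply]
      congr 1
      simp only [eq_iff_iff, Fin.ext_iff, Fin.val_succ]
      omega
    · rw [Pi.single_apply, if_neg]
      · rfl
      · intro h'
        apply h
        rw [← h']
        simp
  · split_ifs with h
    · rw [Pi.single_apply, Pi.single_apply]
      congr 1
      simp only [eq_iff_iff, Fin.ext_iff, Fin.val_castSucc]
    · rw [Pi.single_apply, if_neg]
      · rfl
      · intro h'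
        apply h
        rw [← h']
        simp

lemma pX_pull {N : ℕ} (k : ℕ) (F : Sm N) :
    pX (N + 1) k (pull N F) = pull N ((1 / 2 : ℂ) • (pdN N (k - 1) F - pdN N k F)) := by
  apply Subtype.ext
  funext x
  unfold pX
  split_ifs with h
  · show (1 / 2 : ℂ) * fderiv ℝ (fun x => F.1 (xiOf x)) x (Pi.single ⟨k - 1, by omega⟩ 1) =
      (1 / 2 : ℂ) * ((pdN N (k - 1) F).1 (xiOf x) - (pdN N k F).1 (xiOf x))
    rw [fderiv_pull, xi_single, map_sub]
    congr 2
    · unfold pdN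
      by_cases h1 : 1 ≤ k - 1
      · rw [dif_pos (show 1 ≤ k - 1 ∧ k - 1 ≤ N by omega), dif_pos h1]
        rfl
      · rw [dif_neg (show ¬ (1 ≤ k - 1 ∧ k - 1 ≤ N) by omega), dif_neg h1, map_zero]
        rfl
    · unfold pdN
      by_cases h1 : k - 1 < N
      · rw [dif_pos (show 1 ≤ k ∧ k ≤ N by omega), dif_pos h1]
        rfl
      · rw [dif_neg (show ¬ (1 ≤ k ∧ k ≤ N) by omega), dif_neg h1, map_zero]
        rfl
  · have e1 : pdN N (k - 1) = 0 := by
      unfold pdN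
      rw [dif_neg]
      omega
    have e2 : pdN N k = 0 := by
      unfold pdN
      rw [dif_neg]
      omega
    rw [e1, e2]
    simp

lemma TX_pull {N : ℕ} {R : Rep N (Module.End ℂ (Sm N))} (hR : IsRepXi N R) (k : ℕ) (F : Sm N) :
    TX (N + 1) k (pull N F) = pull N (R.T k F) := by
  unfold TX Rep.T
  by_cases h : 1 ≤ k ∧ k ≤ N
  · rw [dif_pos (show 1 ≤ k ∧ k < N + 1 by omega), dif_pos h]
    apply Subtype.ext
    funext x
    rw [pull_val, hR.2]
    show eij ⟨k - 1, by omega⟩ ⟨k, by omega⟩ x * F.1 (xiOf x) = _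
    congr 1
    rw [Finset.prod_eq_single (⟨k - 1, by omega⟩ : Fin N)]
    · rw [Pi.single_eq_same, pow_one]
      unfold eij xiOf
      congr 4
      obtain ⟨k, rfl⟩ : ∃ k', k = k' + 1 := ⟨k - 1, by omega⟩
      rfl
    · intro j _ hj
      rw [Pi.single_eq_of_ne hj, pow_zero]
    · intro h'
      exact absurd (Finset.mem_univ _) h'
  · rw [dif_neg (show ¬ (1 ≤ k ∧ k < N + 1) by omega), dif_neg h]
    simp

lemma sv_op {N : ℕ} {R : Rep N (Module.End ℂ (Sm N))} (hR : IsRepXi N R) (k : ℕ) :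
    R.θ (sv N k) = (-(1 / 2) : ℂ) • pdN N k := by
  unfold sv pdN
  split_ifs with h
  · rw [hR.1]
  · rw [map_zero, smul_zero]

lemma p_pull {N : ℕ} {R : Rep N (Module.End ℂ (Sm N))} (hR : IsRepXi N R) (k : ℕ) (F : Sm N) :
    pX (N + 1) k (pull N F) = pull N (R.p k F) := by
  rw [pX_pull]
  congr 1
  unfold Rep.p
  rw [map_sub, sv_op hR, sv_op hR, LinearMap.sub_apply, LinearMap.smul_apply,
    LinearMap.smul_apply]
  module

lemma ach_op {V : Type} [AddCommGroup V] [Module ℂ V] (p T : ℕ → Module.End ℂ V) (z : ℂ) (l : ℕ)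
    (v : V) : Ach p T z (l + 2) v =
      z • Ach p T z (l + 1) v - p (l + 2) (Ach p T z (l + 1) v) + T (l + 1) (Ach p T z l v) := by
  show ((algebraMap ℂ (Module.End ℂ V) z - p (l + 2)) * Ach p T z (l + 1) +
    T (l + 1) * Ach p T z l) v = _
  simp [Module.algebraMap_end_apply]

lemma ach_op1 {V : Type} [AddCommGroup V] [Module ℂ V] (p T : ℕ → Module.End ℂ V) (z : ℂ)
    (v : V) : Ach p T z 1 v = z • v - p 1 v := by
  show (algebraMap ℂ (Module.End ℂ V) z - p 1) v = _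
  simp [Module.algebraMap_end_apply]

lemma ach_pull {N : ℕ} {R : Rep N (Module.End ℂ (Sm N))} (hR : IsRepXi N R) (F : Sm N) (z : ℂ)
    (l : ℕ) :
    Ach (pX (N + 1)) (TX (N + 1)) z l (pull N F) = pull N (Ach R.p R.T z l F) ∧
    Ach (pX (N + 1)) (TX (N + 1)) z (l + 1) (pull N F) = pull N (Ach R.p R.T z (l + 1) F) := by
  induction l with
  | zero =>
    refine ⟨rfl, ?_⟩
    rw [zero_add, ach_op1, ach_op1, p_pull hR, map_sub, map_smul]
  | succ l ih =>
    refine ⟨ih.2, ?_⟩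
    rw [ach_op, ach_op, ih.1, ih.2, p_pull hR, TX_pull hR, map_add, map_sub, map_smul]

/-- WH-XI -/
theorem t_xi : S_XI := by
  intro N R hR F hG z x
  have h := (ach_pull hR F z (N + 1)).1
  exact congrArg (fun G : Sm (N + 1) => G.1 x) h

end Pool.Agent.W782.WH.XI
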